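import Pool.Agent.H22.Sch4

set_option autoImplicit false

namespace Pool.Agent.Results.MP_fd02da_an.Counter

open Pool.Agent.H22.Sch

theorem result (H : Type) [NormedAddCommGroup H] [InnerProductSpace ℂ H] [CompleteSpace H]
    (b : HilbertBasis ℕ ℂ H) :
    ∃ A : (H →L[ℂ] H) →ₗ[ℂ] (H →L[ℂ] H),
      (∀ x, Q b 4 x < ⊤ → Q b 4 (A x) ≤ Q b 4 x) ∧ ¬ PwLim b 4 A :=
  ⟨T b, T4, not_pw⟩

end Pool.Agent.Results.MP_fd02da_an.Counter
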